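import Pool.Agent.R537.LR.Stm

set_option autoImplicit false

/-!
# S_SLP: repair of approximate values of a straight-line program (helper507)
-/

namespace Pool.Agent.NPC.R537LR

namespace SLP507

theorem gholds_congr {v v' : ℕ → ℝ} {g : Gate} (h : v' g.2.2.2.1 = v g.2.2.2.1)
    (h2 : 2 ≤ g.1 → v' g.2.1 = v g.2.1 ∧ v' g.2.2.1 = v g.2.2.1) (H : GHolds v g) :
    GHolds v' g := by
  unfold GHolds at H ⊢
  split_ifs at H ⊢ with h0 h1 h3
  · rw [h, H]
  · obtain ⟨a, b⟩ := h2 (by omega)
    rw [h, a, b, H]
  · obtain ⟨a, b⟩ := h2 (by omega)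
    rw [h, a, b, H]

/-- one step -/
theorem step {X v : ℕ → ℝ} {θ K : ℝ} {m : ℕ} {g : Gate} (h0 : 0 ≤ θ) (h1 : θ ≤ 1) (hK : 1 ≤ K)
    (hX : ∀ i ≤ m, |X i| ≤ 1 + θ) (hE : GErr X g ≤ K * θ) (hv1 : ∀ i < m, |v i| ≤ 1)
    (hv3 : ∀ i < m, |X i - v i| ≤ K * 4 ^ i * θ) (g1 : g.2.2.2.1 = m)
    (g2 : g.1 = 1 → |g.2.2.2.2| ≤ 8) (g3 : 2 ≤ g.1 → g.2.1 < m ∧ g.2.2.1 < m) :
    ∃ x : ℝ, |x| ≤ 1 ∧ (g.1 = 1 → x = (g.2.2.2.2 : ℝ) / 8) ∧
      (g.1 = 2 → v g.2.1 + v g.2.2.1 = 2 * x) ∧ (3 ≤ g.1 → v g.2.1 * v g.2.2.1 = x) ∧
      |X m - x| ≤ K * 4 ^ m * θ := by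
  have hKθ : 0 ≤ K * θ := mul_nonneg (by linarith) h0
  have h4 : (1 : ℝ) ≤ 4 ^ m := one_le_pow₀ (by norm_num)
  have hb : K * θ ≤ K * 4 ^ m * θ := by nlinarith
  by_cases t0 : g.1 = 0
  · -- clamp
    have hXm := abs_le.1 (hX m le_rfl)
    have hθK : θ ≤ K * θ := by nlinarith
    refine ⟨max (-1) (min 1 (X m)), ?_, fun h => by omega, fun h => by omega,
      fun h => by omega, ?_⟩
    · rw [abs_le]
      exact ⟨le_max_left _ _, max_le (by norm_num) (min_le_left _ _)⟩
    · refine le_trans ?_ hb
      refine le_trans ?_ hθK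
      rw [abs_le]
      rcases le_total 1 (X m) with h | h
      · rw [min_eq_left h, max_eq_right (by norm_num)]
        constructor <;> linarith
      · rw [min_eq_right h]
        rcases le_total (-1) (X m) with h' | h'
        · rw [max_eq_right h']
          constructor <;> linarith
        · rw [max_eq_left h']
          constructor <;> linarith
  · by_cases t1 : g.1 = 1
    · unfold GErr at hE
      rw [if_neg t0, if_pos t1, g1] at hE
      refine ⟨(g.2.2.2.2 : ℝ) / 8, ?_, fun _ => rfl, fun h => by omega, fun h => by omega,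
        hE.trans hb⟩
      have h8 : ((|g.2.2.2.2| : ℤ) : ℝ) ≤ 8 := by exact_mod_cast g2 t1
      rw [abs_div, ← Int.cast_abs, abs_of_pos (by norm_num : (0 : ℝ) < 8)]
      rw [div_le_one (by norm_num)]
      exact h8
    · obtain ⟨hi, hj⟩ := g3 (by omega)
      set i := g.2.1 with hidef
      set j := g.2.2.1 with hjdef
      have hm : 0 < m := by omega
      obtain ⟨m', rfl⟩ : ∃ m', m = m' + 1 := ⟨m - 1, by omega⟩
      have h4' : (1 : ℝ) ≤ 4 ^ m' := one_le_pow₀ (by norm_num)
      have hp : ∀ i < m' + 1, |X i - v i| ≤ K * 4 ^ m' * θ := by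
        intro i hi
        refine (hv3 i hi).trans ?_
        have : (4 : ℝ) ^ i ≤ 4 ^ m' := pow_le_pow_right₀ (by norm_num) (by omega)
        nlinarith
      have ei := hp i hi
      have ej := hp j hj
      have vi := hv1 i hi
      have vj := hv1 j hj
      have hM : K * θ ≤ K * 4 ^ m' * θ := by nlinarith
      have h44 : K * 4 ^ (m' + 1) * θ = 4 * (K * 4 ^ m' * θ) := by ring
      rw [h44]
      by_cases t2 : g.1 = 2
      · unfold GErr at hE
        rw [if_neg t0, if_neg t1, if_pos t2, g1] at hE
        refine ⟨(v i + v j) / 2, ?_, fun h => by omega, fun _ => by ring, fun h => by omega, ?_⟩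
        · rw [abs_le] at vi vj ⊢
          constructor <;> linarith [vi.1, vi.2, vj.1, vj.2]
        · rw [abs_le] at ei ej hE ⊢
          constructor <;> linarith [ei.1, ei.2, ej.1, ej.2, hE.1, hE.2]
      · unfold GErr at hE
        rw [if_neg t0, if_neg t1, if_neg t2, g1] at hE
        refine ⟨v i * v j, ?_, fun h => by omega, fun h => by omega, fun _ => rfl, ?_⟩
        · rw [abs_mul]
          exact mul_le_one₀ vi (abs_nonneg _) vj
        · have hXi : |X i| ≤ 2 := (hX i (by omega)).trans (by linarith)
          have e1 : X (m' + 1) - v i * v j =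
              -(X i * X j - X (m' + 1)) + (X i * (X j - v j) + v j * (X i - v i)) := by ring
          rw [e1]
          refine (abs_add_le _ _).trans ?_
          rw [abs_neg]
          have e2 : |X i * (X j - v j) + v j * (X i - v i)| ≤ 3 * (K * 4 ^ m' * θ) := by
            refine (abs_add_le _ _).trans ?_
            rw [abs_mul, abs_mul]
            have a1 : |X i| * |X j - v j| ≤ 2 * (K * 4 ^ m' * θ) :=
              mul_le_mul hXi ej (abs_nonneg _) (by norm_num)
            have a2 : |v j| * |X i - v i| ≤ 1 * (K * 4 ^ m' * θ) :=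
              mul_le_mul vj ei (abs_nonneg _) (by norm_num)
            linarith
          linarith

end SLP507

open SLP507 in
/-- Repair of approximate values. -/
theorem t_SLP : S_SLP := by
  intro n G X θ K hFF h0 h1 hK hX hE
  obtain ⟨hl, hG⟩ := hFF
  have key : ∀ m ≤ n, ∃ v : ℕ → ℝ, (∀ i < m, |v i| ≤ 1) ∧
      (∀ k (hk : k < G.length), k < m → GHolds v G[k]) ∧
      ∀ i < m, |X i - v i| ≤ K * 4 ^ i * θ := by
    intro m
    induction m with
    | zero =>
      intro _
      exact ⟨X, fun i hi => absurd hi (by omega), fun k _ hi => absurd hi (by omega),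
        fun i hi => absurd hi (by omega)⟩
    | succ m ih =>
      intro hm
      obtain ⟨v, hv1, hv2, hv3⟩ := ih (by omega)
      have hk : m < G.length := by omega
      obtain ⟨g1, g2, g3⟩ := hG m hk
      have gE := hE G[m] (List.getElem_mem hk)
      obtain ⟨x, x1, x2, x3, x4, x5⟩ := step h0 h1 hK (fun i hi => hX i (by omega)) gE hv1 hv3
        g1 g2 g3
      refine ⟨Function.update v m x, ?_, ?_, ?_⟩
      · intro i hi
        by_cases h : i = m
        · rw [h, Function.update_self]
          exact x1
        · rw [Function.update_of_ne h]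
          exact hv1 i (by omega)
      · intro k hk' hkm
        by_cases h : k = m
        · subst h
          unfold GHolds
          split_ifs with t0 t1 t2
          · rw [g1, Function.update_self]
            exact x2 t1
          · obtain ⟨hi, hj⟩ := g3 (by omega)
            rw [g1, Function.update_self, Function.update_of_ne (by omega),
              Function.update_of_ne (by omega)]
            exact x3 t2
          · obtain ⟨hi, hj⟩ := g3 (by omega)
            rw [g1, Function.update_self, Function.update_of_ne (by omega),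
              Function.update_of_ne (by omega)]
            exact x4 (by omega)
        · obtain ⟨k1, k2, k3⟩ := hG k hk'
          refine gholds_congr ?_ ?_ (hv2 k hk' (by omega))
          · rw [k1, Function.update_of_ne h]
          · intro t
            obtain ⟨hi, hj⟩ := k3 t
            rw [Function.update_of_ne (by omega), Function.update_of_ne (by omega)]
            exact ⟨rfl, rfl⟩
      · intro i hi
        by_cases h : i = m
        · rw [h, Function.update_self]
          exact x5
        · rw [Function.update_of_ne h]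
          exact hv3 i (by omega)
  obtain ⟨v, hv1, hv2, hv3⟩ := key n le_rfl
  refine ⟨v, hv1, ?_, hv3⟩
  intro g hg
  obtain ⟨k, hk, rfl⟩ := List.getElem_of_mem hg
  exact hv2 k hk (by omega)

end Pool.Agent.NPC.R537LR
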